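import Pool.Agent.Helper488_eg.Keller

/-!
# The trapezoid conjecture and degree growth under composition

Let `fᵢ = (Fᵢ, Gᵢ)`, `i < k`, be polynomial maps of the plane such that the bracket `[Fᵢ, Gᵢ]` is
constant and the Newton polygon of `Fᵢ` is a trapezoid `T_{m,n}`, `0 < m < n` (conditions 1 and 5 of
the problem).  If `18 (deg H)² < 2 ^ k` for some composite `H = h ∘ f_{k-1} ∘ ⋯ ∘ f₀`, `h` not
constant, then one of the brackets vanishes.  In particular, a single pair `f = (F, G)` has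
`[F, G] = 0` as soon as `18 (deg (h ∘ f^k))² < 2 ^ k` for one `k` and one nonconstant `h`; this holds
for instance if `h(F, G) = λ h + μ` with constants `λ, μ` (the map permutes the fibres of `h`
affinely).

Idea of the proof.  By the multiplicity of `x` in its leading form, `F` is not a coordinate, so
`f` would be a Keller map which is not an automorphism.  For compositions of such maps the degree of
every nonconstant polynomial grows exponentially: the parts of this theorem are in the starting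
library (`Pool/Agent/H193R5/EG` and the files of its tasks, not assembled and not handed in before);
they are put together in `Pool/Agent/Helper488_eg/Keller.lean`.
-/

set_option autoImplicit false

open MvPolynomial

namespace Pool.Agent.Results.MP_2d59ee_ag.DegreeGrowth

/-- `iter F G k h` is the composite `h ∘ f_{k-1} ∘ ⋯ ∘ f₀` of the polynomial `h` and the polynomial
maps `fᵢ = (F i, G i)` of the plane. -/
noncomputable def iter (F G : ℕ → MvPolynomial (Fin 2) ℂ) :
    ℕ → MvPolynomial (Fin 2) ℂ → MvPolynomial (Fin 2) ℂ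
  | 0, h => h
  | k + 1, h => iter F G k (aeval ![F k, G k] h)

/-- the convex hull condition -/
theorem hull {F : MvPolynomial (Fin 2) ℂ} {m n : ℕ} (hn : 0 < n)
    (h : convexHull ℝ (insert ((0:ℝ), (0:ℝ))
      ((fun d : Fin 2 →₀ ℕ => ((d 0 : ℝ), (d 1 : ℝ))) '' (↑F.support : Set (Fin 2 →₀ ℕ))))
      = {p : ℝ × ℝ | 0 ≤ p.2 ∧ p.2 ≤ (n : ℝ) ∧ 0 ≤ p.1 ∧ p.1 ≤ (m : ℝ) + (n : ℝ) - p.2}) :
    (∀ d, coeff d F ≠ 0 → d 1 ≤ n ∧ d 0 + d 1 ≤ m + n) ∧
      coeff (Finsupp.single 0 m + Finsupp.single 1 n) F ≠ 0 := by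
  have h1 : ∀ d, coeff d F ≠ 0 → d 1 ≤ n ∧ d 0 + d 1 ≤ m + n := by
    intro d hd
    have h2 : ((d 0 : ℝ), (d 1 : ℝ)) ∈ convexHull ℝ (insert ((0:ℝ), (0:ℝ))
      ((fun d : Fin 2 →₀ ℕ => ((d 0 : ℝ), (d 1 : ℝ))) '' (↑F.support : Set (Fin 2 →₀ ℕ)))) :=
      subset_convexHull ℝ _ (Set.mem_insert_of_mem _ ⟨d, mem_support_iff.2 hd, rfl⟩)
    rw [h] at h2
    obtain ⟨_, h3, _, h4⟩ := h2
    simp only at h3 h4
    constructor
    · exact_mod_cast h3
    · have : (d 0 : ℝ) + d 1 ≤ m + n := by linarith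
      exact_mod_cast this
  refine ⟨h1, fun h0 => ?_⟩
  have hconv : Convex ℝ {p : ℝ × ℝ | p.1 + 2 * p.2 ≤ (m : ℝ) + 2 * n - 1} := by
    intro x hx y hy s t hs ht hst
    simp only [Set.mem_ofPred_eq, Prod.fst_add, Prod.snd_add, Prod.smul_fst, Prod.smul_snd,
      smul_eq_mul] at hx hy ⊢
    have e1 := mul_le_mul_of_nonneg_left hx hs
    have e2 := mul_le_mul_of_nonneg_left hy ht
    have e3 : s * ((m : ℝ) + 2 * n - 1) + t * ((m : ℝ) + 2 * n - 1) = (m : ℝ) + 2 * n - 1 := by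
      rw [← add_mul, hst, one_mul]
    linarith
  have hsub : insert ((0:ℝ), (0:ℝ))
      ((fun d : Fin 2 →₀ ℕ => ((d 0 : ℝ), (d 1 : ℝ))) '' (↑F.support : Set (Fin 2 →₀ ℕ))) ⊆
      {p : ℝ × ℝ | p.1 + 2 * p.2 ≤ (m : ℝ) + 2 * n - 1} := by
    intro p hp
    rcases hp with rfl | ⟨d, hd, rfl⟩
    · simp only [Set.mem_ofPred_eq]
      have : (1 : ℝ) ≤ n := by exact_mod_cast hn
      have h2 : (0 : ℝ) ≤ m := Nat.cast_nonneg _
      linarith
    · simp only [Set.mem_ofPred_eq]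
      have hd' : coeff d F ≠ 0 := mem_support_iff.1 hd
      obtain ⟨g1, g2⟩ := h1 d hd'
      have g3 : d 0 + 2 * d 1 + 1 ≤ m + 2 * n := by
        by_contra h5
        have h6 : d 1 = n := by omega
        have h7 : d 0 = m := by omega
        apply hd'
        have e : d = Finsupp.single 0 m + Finsupp.single 1 n := by
          ext i
          fin_cases i
          · simp [h7]
          · simp [h6]
        rw [e]
        exact h0
      have : (d 0 : ℝ) + 2 * d 1 + 1 ≤ m + 2 * n := by exact_mod_cast g3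
      linarith
  have h3 := convexHull_min hsub hconv
  rw [h] at h3
  have h4 : ((m : ℝ), (n : ℝ)) ∈ {p : ℝ × ℝ | p.1 + 2 * p.2 ≤ (m : ℝ) + 2 * n - 1} := by
    apply h3
    refine ⟨Nat.cast_nonneg _, le_rfl, Nat.cast_nonneg _, ?_⟩
    simp
  simp only [Set.mem_ofPred_eq] at h4
  linarith

/-- **Degree growth.**  Let `k` pairs `(F i, G i)`, `i < k`, be given, such that the Newton polygon
of `F i` is the trapezoid `T_{m i, n i}` with `0 < m i < n i` and the bracket of `F i` and `G i` is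
constant.  If there is a nonconstant polynomial `h` such that the degree `D` of the composite
`h ∘ f_{k-1} ∘ ⋯ ∘ f₀`, `fᵢ = (F i, G i)`, satisfies `18 D² < 2 ^ k`, then one of the brackets
vanishes. -/
theorem result (k : ℕ) (m n : ℕ → ℕ) (F G : ℕ → MvPolynomial (Fin 2) ℂ)
    (hm : ∀ i < k, 0 < m i) (hmn : ∀ i < k, m i < n i)
    (h1 : ∀ i < k, convexHull ℝ (insert ((0:ℝ), (0:ℝ))
        ((fun d : Fin 2 →₀ ℕ => ((d 0 : ℝ), (d 1 : ℝ))) '' (↑(F i).support : Set (Fin 2 →₀ ℕ))))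
        = {p : ℝ × ℝ | 0 ≤ p.2 ∧ p.2 ≤ (n i : ℝ) ∧ 0 ≤ p.1 ∧
            p.1 ≤ (m i : ℝ) + (n i : ℝ) - p.2})
    (h5 : ∀ i < k, ∃ c : ℂ,
      pderiv 0 (F i) * pderiv 1 (G i) - pderiv 1 (F i) * pderiv 0 (G i) = C c)
    (h : MvPolynomial (Fin 2) ℂ) (hh : ∀ c : ℂ, h ≠ C c)
    (hD : 18 * (iter F G k h).totalDegree ^ 2 < 2 ^ k) :
    ∃ i < k, pderiv 0 (F i) * pderiv 1 (G i) - pderiv 1 (F i) * pderiv 0 (G i) = 0 := by
  by_contra hcon
  push Not at hcon
  have key : ∀ j ≤ k, ∃ Φ : MvPolynomial (Fin 2) ℂ →ₐ[ℂ] MvPolynomial (Fin 2) ℂ,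
      H193R5.EG.Chain (H193R5.EG.pbL ℂ) j Φ ∧ ∀ u, Φ u = iter F G j u := by
    intro j
    induction j with
    | zero =>
      intro _
      refine ⟨AlgHom.id ℂ _, H193R5.EG.Chain.zero _ ⟨Function.injective_id, 1, one_ne_zero,
        fun u v => by simp⟩, fun u => rfl⟩
    | succ j ih =>
      intro hj
      obtain ⟨Φ, hΦ, hΦ'⟩ := ih (by omega)
      obtain ⟨c, hc⟩ := h5 j (by omega)
      have hc0 : c ≠ 0 := by
        rintro rfl
        exact hcon j (by omega) (by rw [hc, C_0])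
      set σ : MvPolynomial (Fin 2) ℂ →ₐ[ℂ] MvPolynomial (Fin 2) ℂ := aeval ![F j, G j] with hσ
      have e0 : σ (X 0) = F j := by simp [hσ]
      have e1 : σ (X 1) = G j := by simp [hσ]
      have hpb : H88R2.DC.pb (σ (X 0)) (σ (X 1)) = C c := by
        rw [e0, e1]
        exact hc
      obtain ⟨g1, g2⟩ := hull (by have := hm j (by omega); have := hmn j (by omega); omega)
        (h1 j (by omega))
      have hnt := Helper488EG.nt_of_trapezoid (hm j (by omega)) (hmn j (by omega)) g1 g2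
      rw [← e0] at hnt
      refine ⟨Φ.comp σ, H193R5.EG.Chain.succ j Φ σ hΦ (Helper488EG.endo_of σ hc0 hpb)
        (Helper488EG.not_surj hpb hnt), fun u => ?_⟩
      change Φ (σ u) = iter F G j (aeval ![F j, G j] u)
      rw [hΦ']
  obtain ⟨Φ, hΦ, hΦ'⟩ := key k le_rfl
  have h3 := Helper488EG.growth k Φ hΦ h hh
  rw [hΦ'] at h3
  omega

end Pool.Agent.Results.MP_2d59ee_ag.DegreeGrowth
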